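import Pool.Agent.Helper21.CU.St
import Pool.Agent.Helper60.GP.M_M1

/-! Project CU (MP_ad0dc2_nt), module RP -/

set_option autoImplicit false

open Finset

namespace Pool.Agent.Helper37.CU

open Pool.Agent.Helper21.CU

namespace RP

theorem dy (r : ℕ → ℝ) (hr : ∀ n, 0 ≤ r n) (C : ℝ) (h : ∀ x : ℕ, ∑ s ∈ Icc 1 x, r s ≤ C * x)
    (τ : ℝ) (hτ : 0 < τ) (n : ℕ) :
    ∑ s ∈ Ico 1 (2 ^ n), r s * (s : ℝ) ^ (-1 - τ) ≤
      ∑ i ∈ range n, 2 * C * ((1 / 2 : ℝ) ^ τ) ^ i := by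
  induction n with
  | zero => simp
  | succ n ih =>
    rw [← Finset.sum_Ico_consecutive _ (Nat.one_le_two_pow : 1 ≤ 2 ^ n)
      (Nat.pow_le_pow_right (by norm_num) (Nat.le_succ n)), Finset.sum_range_succ]
    refine add_le_add ih ?_
    have hpos : (0 : ℝ) < (2 : ℝ) ^ n := by positivity
    have h1 : ∑ s ∈ Ico (2 ^ n) (2 ^ (n + 1)), r s * (s : ℝ) ^ (-1 - τ) ≤
        ∑ s ∈ Ico (2 ^ n) (2 ^ (n + 1)), r s * ((2 : ℝ) ^ n) ^ (-1 - τ) := by
      refine Finset.sum_le_sum fun s hs => mul_le_mul_of_nonneg_left ?_ (hr s)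
      rw [Finset.mem_Ico] at hs
      refine Real.rpow_le_rpow_of_nonpos hpos ?_ (by linarith)
      exact_mod_cast hs.1
    have h2 : ∑ s ∈ Ico (2 ^ n) (2 ^ (n + 1)), r s ≤ C * (2 : ℝ) ^ (n + 1) := by
      have h3 := h (2 ^ (n + 1))
      have h4 : ∑ s ∈ Ico (2 ^ n) (2 ^ (n + 1)), r s ≤ ∑ s ∈ Icc 1 (2 ^ (n + 1)), r s := by
        refine Finset.sum_le_sum_of_subset_of_nonneg (fun s hs => ?_) (fun s _ _ => hr s)
        rw [Finset.mem_Ico] at hs
        rw [Finset.mem_Icc]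
        exact ⟨le_trans Nat.one_le_two_pow hs.1, hs.2.le⟩
      have h5 : ((2 ^ (n + 1) : ℕ) : ℝ) = (2 : ℝ) ^ (n + 1) := by push_cast; ring
      rw [h5] at h3
      linarith
    have h6 : ((2 : ℝ) ^ n) ^ (-1 - τ) * (2 : ℝ) ^ (n + 1) = 2 * ((1 / 2 : ℝ) ^ τ) ^ n := by
      have e1 : ((2 : ℝ) ^ n) ^ (-1 - τ) = ((2 : ℝ) ^ n)⁻¹ * ((1 / 2 : ℝ) ^ τ) ^ n := by
        rw [show (-1 - τ) = -1 + -τ by ring, Real.rpow_add hpos, Real.rpow_neg_one,
          Real.rpow_neg hpos.le, ← Real.inv_rpow hpos.le, ← inv_pow, one_div]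
        congr 1
        rw [← Real.rpow_natCast, ← Real.rpow_natCast, ← Real.rpow_mul (by norm_num),
          ← Real.rpow_mul (by norm_num), mul_comm]
      rw [e1, pow_succ]
      field_simp
    calc ∑ s ∈ Ico (2 ^ n) (2 ^ (n + 1)), r s * (s : ℝ) ^ (-1 - τ)
        ≤ (∑ s ∈ Ico (2 ^ n) (2 ^ (n + 1)), r s) * ((2 : ℝ) ^ n) ^ (-1 - τ) := by
          rw [Finset.sum_mul]; exact h1
      _ ≤ C * (2 : ℝ) ^ (n + 1) * ((2 : ℝ) ^ n) ^ (-1 - τ) :=
          mul_le_mul_of_nonneg_right h2 (Real.rpow_nonneg hpos.le _)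
      _ = 2 * C * ((1 / 2 : ℝ) ^ τ) ^ n := by
          rw [mul_assoc, mul_comm ((2 : ℝ) ^ (n + 1)), h6]; ring

theorem total (r : ℕ → ℝ) (hr : ∀ n, 0 ≤ r n) (C : ℝ) (hC : 0 < C)
    (h : ∀ x : ℕ, ∑ s ∈ Icc 1 x, r s ≤ C * x)
    (τ : ℝ) (hτ : 0 < τ) (hτ1 : τ ≤ 1) (M : ℕ) :
    ∑ s ∈ Icc 1 M, r s * (s : ℝ) ^ (-1 - τ) ≤ 4 * C / τ := by
  have h1 : ∑ s ∈ Icc 1 M, r s * (s : ℝ) ^ (-1 - τ) ≤
      ∑ s ∈ Ico 1 (2 ^ M), r s * (s : ℝ) ^ (-1 - τ) := by
    refine Finset.sum_le_sum_of_subset_of_nonneg (fun s hs => ?_)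
      (fun s _ _ => mul_nonneg (hr s) (Real.rpow_nonneg (Nat.cast_nonneg _) _))
    rw [Finset.mem_Icc] at hs
    rw [Finset.mem_Ico]
    exact ⟨hs.1, lt_of_le_of_lt hs.2 Nat.lt_two_pow_self⟩
  have h2 := dy r hr C h τ hτ M
  have hq0 : (0 : ℝ) ≤ (1 / 2 : ℝ) ^ τ := by positivity
  have hq : (1 / 2 : ℝ) ^ τ ≤ 1 - τ / 2 := by
    have := rpow_one_add_le_one_add_mul_self (s := -(1 / 2 : ℝ)) (by norm_num) hτ.le hτ1
    have e : (1 : ℝ) + -(1 / 2) = 1 / 2 := by norm_num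
    rw [e] at this
    linarith
  have h3 : ∑ i ∈ range M, 2 * C * ((1 / 2 : ℝ) ^ τ) ^ i ≤ 4 * C / τ := by
    rw [← Finset.mul_sum]
    have h4 : (∑ i ∈ range M, ((1 / 2 : ℝ) ^ τ) ^ i) * (1 - (1 / 2 : ℝ) ^ τ) ≤ 1 := by
      have h5 := geom_sum_mul_neg ((1 / 2 : ℝ) ^ τ) M
      rw [h5]
      have : 0 ≤ ((1 / 2 : ℝ) ^ τ) ^ M := by positivity
      linarith
    have hG : 0 ≤ ∑ i ∈ range M, ((1 / 2 : ℝ) ^ τ) ^ i :=
      Finset.sum_nonneg fun i _ => pow_nonneg hq0 i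
    have h6 : (∑ i ∈ range M, ((1 / 2 : ℝ) ^ τ) ^ i) * (τ / 2) ≤ 1 :=
      le_trans (mul_le_mul_of_nonneg_left (by linarith) hG) h4
    rw [le_div_iff₀ hτ]
    nlinarith
  linarith

/-- the arithmetic function `ρ(s) s^(-1-τ)` -/
noncomputable def F (k : ℤ) (τ : ℝ) : ArithmeticFunction ℝ :=
  ⟨fun s => ((R k s).card : ℝ) * (s : ℝ) ^ (-1 - τ), by simp [R]⟩

theorem F_apply (k : ℤ) (τ : ℝ) (s : ℕ) : F k τ s = ((R k s).card : ℝ) * (s : ℝ) ^ (-1 - τ) := rfl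

theorem F_mul (hCRT : StCRT) (k : ℤ) (τ : ℝ) : (F k τ).IsMultiplicative := by
  refine ⟨?_, fun {m n} hmn => ?_⟩
  · rw [F_apply]
    have : R k 1 = {0} := by
      ext v
      simp only [R, Finset.mem_filter, Finset.mem_range, Finset.mem_singleton]
      constructor
      · intro h; omega
      · intro h; subst h; simp
    rw [this]; simp
  · rcases Nat.eq_zero_or_pos m with hm | hm
    · subst hm; simp
    rcases Nat.eq_zero_or_pos n with hn | hn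
    · subst hn; simp
    rw [F_apply, F_apply, F_apply, (hCRT k m n hm hn hmn).1]
    push_cast
    rw [Real.mul_rpow (Nat.cast_nonneg _) (Nat.cast_nonneg _)]
    ring

theorem inv_sq (P : Finset ℕ) (hP : ∀ p ∈ P, 2 ≤ p) : ∑ p ∈ P, (1 : ℝ) / (p : ℝ) ^ 2 ≤ 1 := by
  have key : ∀ N : ℕ, ∑ p ∈ Icc 2 (N + 1), (1 : ℝ) / (p : ℝ) ^ 2 ≤ 1 - 1 / (N + 1 : ℝ) := by
    intro N
    induction N with
    | zero => simp
    | succ N ih =>
      rw [Finset.sum_Icc_succ_top (by omega)]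
      have hN : (0 : ℝ) ≤ N := Nat.cast_nonneg N
      have : (1 : ℝ) / ((N + 1 + 1 : ℕ) : ℝ) ^ 2 ≤ 1 / (N + 1 : ℝ) - 1 / ((N + 1 : ℕ) + 1 : ℝ) := by
        push_cast
        rw [div_sub_div _ _ (by positivity) (by positivity), div_le_div_iff₀ (by positivity) (by positivity)]
        nlinarith
      push_cast at this ih ⊢
      linarith
  obtain ⟨N, hN⟩ : ∃ N : ℕ, ∀ p ∈ P, p ≤ N + 1 :=
    ⟨P.sup id, fun p hp => le_trans (Finset.le_sup (f := id) hp) (Nat.le_succ _)⟩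
  have h1 : ∑ p ∈ P, (1 : ℝ) / (p : ℝ) ^ 2 ≤ ∑ p ∈ Icc 2 (N + 1), (1 : ℝ) / (p : ℝ) ^ 2 := by
    refine Finset.sum_le_sum_of_subset_of_nonneg (fun p hp => ?_) (fun p _ _ => by positivity)
    rw [Finset.mem_Icc]
    exact ⟨hP p hp, hN p hp⟩
  have h2 := key N
  have : (0 : ℝ) ≤ 1 / (N + 1 : ℝ) := by positivity
  linarith

end RP

open RP in
theorem hRP (hCNT : StCNT) (hCRT : StCRT) (hPP : StPP) : StRP := by
  intro k hk
  have hk0 : k ≠ 0 := fun h => hk 0 (by rw [h]; norm_num)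
  obtain ⟨C, hC, hCNT⟩ := hCNT k hk
  obtain ⟨C₁, hC₁⟩ := Pool.Agent.Helper60.GP.hM1
  set K : ℝ := 3 + ((3 * k.natAbs) ^ 3 : ℕ) with hK
  have hK0 : 0 ≤ K := by positivity
  have hρ : ∀ p : ℕ, p.Prime → ((R k p).card : ℝ) ≤ K := by
    intro p hp
    have h := hPP k hk0 p 1 hp le_rfl
    rw [pow_one] at h
    by_cases hd : (p : ℤ) ∣ 3 * k
    · have h1 : ((R k p).card : ℝ) ≤ ((3 * k.natAbs) ^ 3 : ℕ) := by exact_mod_cast h.2 hd
      rw [hK]; linarith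
    · have h1 : ((R k p).card : ℝ) ≤ (3 : ℕ) := by exact_mod_cast (h.1 hd).2
      have h2 : (0 : ℝ) ≤ ((3 * k.natAbs) ^ 3 : ℕ) := Nat.cast_nonneg _
      rw [hK]; push_cast at h1 h2 ⊢; linarith
  refine ⟨|Real.log (4 * C)| + K ^ 2 + K * (1 + |C₁|) + 1, by positivity, fun x hx => ?_⟩
  set P := (Icc 1 ⌊x⌋₊).filter Nat.Prime with hPdef
  have hPp : ∀ p ∈ P, p.Prime := fun p hp => (Finset.mem_filter.1 hp).2
  have hlog1 : 1 ≤ Real.log x := by
    rw [Real.le_log_iff_exp_le (by linarith)]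
    have := Real.exp_one_lt_d9
    linarith
  set L := Real.log x with hL
  have hL0 : 0 < L := by linarith
  set τ : ℝ := 1 / L with hτ
  have hτ0 : 0 < τ := by positivity
  have hτ1 : τ ≤ 1 := by rw [hτ, div_le_one hL0]; exact hlog1
  -- the product
  have hprod : ∏ p ∈ P, (1 + F k τ p) ≤ 4 * C * L := by
    set M : ℕ := ∏ p ∈ P, p with hM
    have hM0 : M ≠ 0 := Finset.prod_ne_zero_iff.2 fun p hp => (hPp p hp).ne_zero
    have hMf : M.primeFactors = P := Nat.primeFactors_prod hPp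
    have hMs : Squarefree M := by
      rw [hM]
      refine Finset.squarefree_prod_of_pairwise_isCoprime ?_ ?_
      · intro p hp q hq hpq
        exact Nat.coprime_iff_isRelPrime.1 ((Nat.coprime_primes (hPp p hp) (hPp q hq)).2 hpq)
      · exact fun p hp => (hPp p hp).squarefree
    have h1 := (F_mul hCRT k τ).prodPrimeFactors_one_add_of_squarefree hMs
    rw [hMf] at h1
    rw [h1]
    have h2 := total (fun s => ((R k s).card : ℝ)) (fun s => Nat.cast_nonneg _) C hC hCNT τ hτ0 hτ1 M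
    have h3 : ∑ d ∈ M.divisors, F k τ d ≤
        ∑ s ∈ Icc 1 M, ((R k s).card : ℝ) * (s : ℝ) ^ (-1 - τ) := by
      refine Finset.sum_le_sum_of_subset_of_nonneg (fun d hd => ?_)
        (fun s _ _ => mul_nonneg (Nat.cast_nonneg _) (Real.rpow_nonneg (Nat.cast_nonneg _) _))
      rw [Finset.mem_Icc]
      exact ⟨Nat.pos_of_mem_divisors hd, Nat.divisor_le hd⟩
    have h4 : 4 * C / τ = 4 * C * L := by rw [hτ]; field_simp
    linarith
  -- each factor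
  have hF0 : ∀ p, 0 ≤ F k τ p := fun p =>
    mul_nonneg (Nat.cast_nonneg _) (Real.rpow_nonneg (Nat.cast_nonneg _) _)
  have hlogsum : ∑ p ∈ P, Real.log (1 + F k τ p) ≤ Real.log (4 * C) + Real.log L := by
    rw [← Real.log_prod (fun p _ => by have := hF0 p; positivity), ← Real.log_mul (by positivity) hL0.ne']
    exact Real.log_le_log (Finset.prod_pos fun p _ => by have := hF0 p; positivity) hprod
  have hterm : ∀ p ∈ P, ((R k p).card : ℝ) / p ≤
      Real.log (1 + F k τ p) + K ^ 2 * (1 / (p : ℝ) ^ 2) + K * τ * (Real.log p / p) := by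
    intro p hp
    have hpp := hPp p hp
    have hp0 : (0 : ℝ) < p := by exact_mod_cast hpp.pos
    have hp1 : (1 : ℝ) ≤ p := by exact_mod_cast hpp.one_lt.le
    have hr0 : (0 : ℝ) ≤ ((R k p).card : ℝ) := Nat.cast_nonneg _
    have hrK := hρ p hpp
    set y := F k τ p with hy
    have hy0 : 0 ≤ y := hF0 p
    have hyv : y = ((R k p).card : ℝ) / p * (p : ℝ) ^ (-τ) := by
      rw [hy, F_apply, show (-1 - τ) = -1 + -τ by ring, Real.rpow_add hp0, Real.rpow_neg_one]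
      ring
    have hpt : (p : ℝ) ^ (-τ) ≤ 1 := Real.rpow_le_one_of_one_le_of_nonpos hp1 (by linarith)
    have hpt2 : 1 - τ * Real.log p ≤ (p : ℝ) ^ (-τ) := by
      rw [Real.rpow_def_of_pos hp0]
      have := Real.add_one_le_exp (Real.log p * -τ)
      linarith
    have ha0 : 0 ≤ ((R k p).card : ℝ) / p := by positivity
    have haK : ((R k p).card : ℝ) / p ≤ K / p := by gcongr
    have hyle : y ≤ K / p := by
      rw [hyv]
      calc ((R k p).card : ℝ) / p * (p : ℝ) ^ (-τ) ≤ ((R k p).card : ℝ) / p * 1 :=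
            mul_le_mul_of_nonneg_left hpt ha0
        _ ≤ K / p := by rw [mul_one]; exact haK
    have hlog : y - y ^ 2 ≤ Real.log (1 + y) := by
      have h1 := Real.le_log_one_add_of_nonneg hy0
      have h2 : y - y ^ 2 ≤ 2 * y / (y + 2) := by
        rw [le_div_iff₀ (by linarith)]
        nlinarith [mul_nonneg hy0 hy0, mul_nonneg (mul_nonneg hy0 hy0) hy0]
      linarith
    have hy2 : y ^ 2 ≤ K ^ 2 * (1 / (p : ℝ) ^ 2) := by
      calc y ^ 2 ≤ (K / p) ^ 2 := by gcongr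
        _ = K ^ 2 * (1 / (p : ℝ) ^ 2) := by ring
    have hlp : 0 ≤ Real.log p := Real.log_nonneg hp1
    have hdiff : ((R k p).card : ℝ) / p - y ≤ K * τ * (Real.log p / p) := by
      have h1 : ((R k p).card : ℝ) / p - y = ((R k p).card : ℝ) / p * (1 - (p : ℝ) ^ (-τ)) := by
        rw [hyv]; ring
      rw [h1]
      calc ((R k p).card : ℝ) / p * (1 - (p : ℝ) ^ (-τ))
          ≤ ((R k p).card : ℝ) / p * (τ * Real.log p) :=
            mul_le_mul_of_nonneg_left (by linarith) ha0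
        _ ≤ K / p * (τ * Real.log p) := mul_le_mul_of_nonneg_right haK (by positivity)
        _ = K * τ * (Real.log p / p) := by ring
    linarith
  have hsum := Finset.sum_le_sum hterm
  rw [Finset.sum_add_distrib, Finset.sum_add_distrib, ← Finset.mul_sum, ← Finset.mul_sum] at hsum
  have h1 : ∑ p ∈ P, (1 : ℝ) / (p : ℝ) ^ 2 ≤ 1 := inv_sq P fun p hp => (hPp p hp).two_le
  have h2 : K * τ * ∑ p ∈ P, Real.log p / p ≤ K * (1 + |C₁|) := by
    have h3 := hC₁ x (by linarith)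
    rw [abs_le] at h3
    have h4 : ∑ p ∈ P, Real.log p / p ≤ L + |C₁| := by
      have := le_abs_self C₁
      have h5 := h3.2
      rw [← hPdef] at h5
      linarith
    have h6 : K * τ * ∑ p ∈ P, Real.log p / p ≤ K * τ * (L + |C₁|) :=
      mul_le_mul_of_nonneg_left h4 (by positivity)
    have h7 : K * τ * (L + |C₁|) = K * (1 + τ * |C₁|) := by
      rw [hτ]; field_simp
    have h8 : τ * |C₁| ≤ 1 * |C₁| := mul_le_mul_of_nonneg_right hτ1 (abs_nonneg _)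
    have h9 : K * (1 + τ * |C₁|) ≤ K * (1 + |C₁|) := mul_le_mul_of_nonneg_left (by linarith) hK0
    linarith
  have h10 : K ^ 2 * ∑ p ∈ P, (1 : ℝ) / (p : ℝ) ^ 2 ≤ K ^ 2 := by
    calc K ^ 2 * ∑ p ∈ P, (1 : ℝ) / (p : ℝ) ^ 2 ≤ K ^ 2 * 1 :=
          mul_le_mul_of_nonneg_left h1 (by positivity)
      _ = K ^ 2 := mul_one _
  have h11 := le_abs_self (Real.log (4 * C))
  linarith

end Pool.Agent.Helper37.CU
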